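import Pool.Agent.H255.BS.Defs

set_option autoImplicit false

open Filter Topology Complex
open scoped InnerProductSpace

namespace Pool.Agent.H255.BS.B_com

open Pool.Agent.H255.BS

variable {H : Type} [NormedAddCommGroup H] [InnerProductSpace ℂ H] [CompleteSpace H]

theorem inner_star (U : H →L[ℂ] H) (x y : H) : ⟪star U x, y⟫_ℂ = ⟪x, U y⟫_ℂ := by
  rw [ContinuousLinearMap.star_eq_adjoint]
  exact ContinuousLinearMap.adjoint_inner_left U y x

/-- operators which agree on the eigenvectors are equal -/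
theorem eqOn {Z : Set ℂ} {A : H →L[ℂ] H} (hA : PP Z A) (X Y : H →L[ℂ] H)
    (h : ∀ ζ ∈ Z, ∀ w : H, A w = ζ • w → X w = Y w) : X = Y := by
  have h1 : ∀ v : H, star (X - Y) v = 0 := by
    intro v
    refine hA.tot _ fun ζ hζ w hw => ?_
    rw [← inner_conj_symm, inner_star]
    have h2 : (X - Y) w = 0 := by
      rw [ContinuousLinearMap.sub_apply, h ζ hζ w hw, sub_self]
    rw [h2, inner_zero_right, map_zero]
  have h2 : star (X - Y) = 0 := by
    ext v
    exact h1 v
  have h3 : X - Y = 0 := by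
    rw [← star_star (X - Y), h2, star_zero]
  exact sub_eq_zero.1 h3

/-- eigenvectors of isometries with unimodular eigenvalues -/
theorem eigv {U : H →L[ℂ] H} (hU : star U * U = 1) {c : ℂ} (hc : ‖c‖ = 1) {w : H}
    (hw : U w = c • w) (u : H) : ⟪w, U u⟫_ℂ = c * ⟪w, u⟫_ℂ := by
  have h1 : star U (U w) = w := by
    have := congrArg (fun S : H →L[ℂ] H => S w) hU
    simpa using this
  have hcc : (starRingEnd ℂ) c * c = 1 := by
    rw [mul_comm, Complex.mul_conj, Complex.normSq_eq_norm_sq, hc]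
    norm_num
  have h2 : star U w = (starRingEnd ℂ) c • w := by
    rw [hw, map_smul] at h1
    calc star U w = ((starRingEnd ℂ) c * c) • star U w := by rw [hcc, one_smul]
      _ = (starRingEnd ℂ) c • (c • star U w) := by rw [mul_smul]
      _ = _ := by rw [h1]
  rw [← inner_star, h2, inner_smul_left, Complex.conj_conj]

theorem nrm {U : H →L[ℂ] H} (hU : star U * U = 1) {c : ℂ} {w : H} (hw0 : w ≠ 0)
    (hw : U w = c • w) : ‖c‖ = 1 := by
  have h1 : star U (U w) = w := by
    have := congrArg (fun S : H →L[ℂ] H => S w) hU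
    simpa using this
  have h2 : ⟪U w, U w⟫_ℂ = ⟪w, w⟫_ℂ := by
    rw [← inner_star, h1]
  rw [inner_self_eq_norm_sq_to_K, inner_self_eq_norm_sq_to_K] at h2
  have h3 : ‖U w‖ ^ 2 = ‖w‖ ^ 2 := by exact_mod_cast h2
  rw [hw, norm_smul, mul_pow] at h3
  have h4 : 0 < ‖w‖ ^ 2 := by positivity
  have h5 : ‖c‖ ^ 2 = 1 := by
    have h6 : ‖c‖ ^ 2 * ‖w‖ ^ 2 = 1 * ‖w‖ ^ 2 := by rw [h3, one_mul]
    exact mul_right_cancel₀ h4.ne' h6
  exact (pow_eq_one_iff_of_nonneg (norm_nonneg c) (by norm_num)).1 h5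

theorem r : S_com := by
  intro H _ _ _ Z A hA θ hθ hinj B hB T
  constructor
  · intro hT
    refine eqOn hA _ _ fun ζ hζ w hw => ?_
    rw [ContinuousLinearMap.mul_apply, ContinuousLinearMap.mul_apply, hB.eig ζ hζ w hw 1,
      map_smul]
    refine (hB.eig ζ hζ (T w) ?_ 1).symm
    have h1 : A (T w) = T (A w) := by
      have := congrArg (fun S : H →L[ℂ] H => S w) hT
      simpa using this.symm
    rw [h1, hw, map_smul]
  · intro hT
    have hU : star (B 1) * B 1 = 1 := by
      rw [hB.star_eq, ← hB.add, ← hB.zero]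
      norm_num
    refine eqOn hA _ _ fun ζ hζ v hv => ?_
    rw [ContinuousLinearMap.mul_apply, ContinuousLinearMap.mul_apply, hv, map_smul]
    have hu : B 1 (T v) = θ ζ • T v := by
      have h1 : B 1 (T v) = T (B 1 v) := by
        have := congrArg (fun S : H →L[ℂ] H => S v) hT
        simpa using this.symm
      rw [h1, hB.eig ζ hζ v hv 1, map_smul, zpow_one]
    symm
    rw [← sub_eq_zero]
    refine hA.tot _ fun η hη w hw => ?_
    by_cases hw0 : w = 0
    · rw [hw0, inner_zero_left]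
    have hη1 : ‖η‖ = 1 := nrm hA.iso hw0 hw
    rw [inner_sub_right, eigv hA.iso hη1 hw, inner_smul_right]
    by_cases he : η = ζ
    · rw [he, sub_self]
    · have h1 : ⟪w, T v⟫_ℂ = 0 := by
        have hBw : B 1 w = θ η • w := by
          rw [hB.eig η hη w hw 1, zpow_one]
        have h2 := eigv hU (hθ η hη) hBw (T v)
        rw [hu, inner_smul_right] at h2
        have h3 : (θ ζ - θ η) * ⟪w, T v⟫_ℂ = 0 := by
          rw [sub_mul, h2, sub_self]
        rcases mul_eq_zero.1 h3 with h4 | h4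
        · exact absurd (hinj ζ hζ η hη (sub_eq_zero.1 h4)).symm he
        · exact h4
      rw [h1, mul_zero, mul_zero, sub_zero]

end Pool.Agent.H255.BS.B_com
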