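import Pool.Agent.H255.BS.Defs

set_option autoImplicit false

open Polynomial

namespace Pool.Agent.H255.BS.B_expd

open Pool.Agent.H255.BS

theorem memR {q : ℕ} (hq : 0 < q) {ζ : ℂ} : ζ ∈ nthRootsFinset q (1 : ℂ) ↔ ζ ^ q = 1 :=
  mem_nthRootsFinset hq 1

theorem reindex {q : ℕ} (hq : 0 < q) {ω : ℂ} (hω : ω ^ q = 1) (G : ℂ → ℂ) :
    ∑ ζ ∈ nthRootsFinset q (1 : ℂ), G (ω * ζ) = ∑ ζ ∈ nthRootsFinset q (1 : ℂ), G ζ := by
  have hω0 : ω ≠ 0 := by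
    rintro rfl
    rw [zero_pow hq.ne'] at hω
    exact zero_ne_one hω
  refine Finset.sum_nbij' (fun ζ => ω * ζ) (fun ζ => ω⁻¹ * ζ) ?_ ?_ ?_ ?_ ?_
  · intro ζ hζ
    have h := (memR hq).1 hζ
    exact (memR hq).2 (by rw [mul_pow, hω, h, one_mul])
  · intro ζ hζ
    have h := (memR hq).1 hζ
    exact (memR hq).2 (by rw [mul_pow, inv_pow, hω, h, inv_one, one_mul])
  · intro ζ _
    exact inv_mul_cancel_left₀ hω0 ζ
  · intro ζ _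
    exact mul_inv_cancel_left₀ hω0 ζ
  · intro ζ _
    rfl

theorem sum_zero {q i : ℕ} (hq : 0 < q) (hi : 0 < i) (hiq : i < q) :
    ∑ ζ ∈ nthRootsFinset q (1 : ℂ), (ζ⁻¹) ^ i = 0 := by
  obtain ⟨ω, hω⟩ : ∃ ω : ℂ, IsPrimitiveRoot ω q := ⟨_, Complex.isPrimitiveRoot_exp q hq.ne'⟩
  have h1 := reindex hq hω.pow_eq_one (fun ζ => (ζ⁻¹) ^ i)
  have h2 : ∑ ζ ∈ nthRootsFinset q (1 : ℂ), ((ω * ζ)⁻¹) ^ i =
      (ω⁻¹) ^ i * ∑ ζ ∈ nthRootsFinset q (1 : ℂ), (ζ⁻¹) ^ i := by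
    rw [Finset.mul_sum]
    refine Finset.sum_congr rfl fun ζ _ => ?_
    rw [mul_inv, mul_pow]
  have h3 : (ω⁻¹) ^ i ≠ 1 := by
    rw [inv_pow, Ne, inv_eq_one]
    exact hω.pow_ne_one_of_pos_of_lt hi.ne' hiq
  have h4 : ((ω⁻¹) ^ i - 1) * ∑ ζ ∈ nthRootsFinset q (1 : ℂ), (ζ⁻¹) ^ i = 0 := by
    have h5 : (ω⁻¹) ^ i * ∑ ζ ∈ nthRootsFinset q (1 : ℂ), (ζ⁻¹) ^ i =
        ∑ ζ ∈ nthRootsFinset q (1 : ℂ), (ζ⁻¹) ^ i := h2.symm.trans h1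
    rw [sub_mul, one_mul, h5, sub_self]
  rcases mul_eq_zero.1 h4 with h | h
  · exact absurd (sub_eq_zero.1 h) h3
  · exact h

theorem sum_card {q : ℕ} (hq : 0 < q) :
    ∑ ζ ∈ nthRootsFinset q (1 : ℂ), (ζ⁻¹) ^ 0 = (q : ℂ) := by
  obtain ⟨ω, hω⟩ : ∃ ω : ℂ, IsPrimitiveRoot ω q := ⟨_, Complex.isPrimitiveRoot_exp q hq.ne'⟩
  simp only [pow_zero, Finset.sum_const, nsmul_eq_mul, mul_one]
  rw [hω.card_nthRootsFinset]

/-- The coefficients vanish. -/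
theorem coef_zero {q d i : ℕ} (hq : 0 < q) (hd : 0 < d) (hdq : d ∣ q) (hdi : d ∣ i) {θ : ℂ → ℂ}
    {j : ℤ} (hs : ∀ ζ : ℂ, ζ ^ q = 1 →
      ∑ ω ∈ nthRootsFinset d (1 : ℂ), θ (ω * ζ) ^ j = 0) :
    ∑ ζ ∈ nthRootsFinset q (1 : ℂ), θ ζ ^ j * (ζ⁻¹) ^ i = 0 := by
  obtain ⟨a, rfl⟩ := hdi
  obtain ⟨b, hb⟩ := hdq
  have h1 : ∀ ω ∈ nthRootsFinset d (1 : ℂ),
      ∑ ζ ∈ nthRootsFinset q (1 : ℂ), θ (ω * ζ) ^ j * (ζ⁻¹) ^ (d * a) =
        ∑ ζ ∈ nthRootsFinset q (1 : ℂ), θ ζ ^ j * (ζ⁻¹) ^ (d * a) := by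
    intro ω hω
    have hωd := (memR hd).1 hω
    have hωq : ω ^ q = 1 := by rw [hb, pow_mul, hωd, one_pow]
    rw [← reindex hq hωq (fun ζ => θ ζ ^ j * (ζ⁻¹) ^ (d * a))]
    refine Finset.sum_congr rfl fun ζ _ => ?_
    have hωi : (ω⁻¹) ^ (d * a) = 1 := by
      rw [inv_pow, pow_mul, hωd, one_pow, inv_one]
    rw [mul_inv, mul_pow, hωi, one_mul]
  have h2 : ∑ ω ∈ nthRootsFinset d (1 : ℂ), ∑ ζ ∈ nthRootsFinset q (1 : ℂ),
      θ (ω * ζ) ^ j * (ζ⁻¹) ^ (d * a) = 0 := by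
    rw [Finset.sum_comm]
    refine Finset.sum_eq_zero fun ζ hζ => ?_
    rw [← Finset.sum_mul, hs ζ ((memR hq).1 hζ), zero_mul]
  rw [Finset.sum_congr rfl h1, Finset.sum_const, nsmul_eq_mul] at h2
  rcases mul_eq_zero.1 h2 with h | h
  · exfalso
    have h3 : (nthRootsFinset d (1 : ℂ)).card = 0 := by exact_mod_cast h
    have h4 : (1 : ℂ) ∈ nthRootsFinset d (1 : ℂ) := (memR hd).2 (one_pow d)
    rw [Finset.card_eq_zero] at h3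
    rw [h3] at h4
    exact absurd h4 (Finset.notMem_empty _)
  · exact h

theorem r : S_expd := by
  intro H _ _ _ m n hm hn A _ θ F hθ B hB k u hk hu j
  set q := (m * n) ^ k with hq
  have hq0 : 0 < q := by positivity
  have hqC : (q : ℂ) ≠ 0 := by exact_mod_cast hq0.ne'
  have hmq : m ∣ q := (dvd_mul_right m n).trans (dvd_pow_self _ (by omega))
  have hnq : n ∣ q := (dvd_mul_left n m).trans (dvd_pow_self _ (by omega))
  have hmu : ∀ ζ : ℂ, ζ ^ q = 1 → ζ ∈ mu m n := fun ζ h => ⟨k, h⟩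
  set U : ℂ → H := fun ζ => ∑ i ∈ Finset.range q, (ζ⁻¹) ^ i • (A ^ i) u with hU
  -- eigenvectors
  have hAU : ∀ ζ : ℂ, ζ ^ q = 1 → A (U ζ) = ζ • U ζ := by
    intro ζ hζ
    have hζ0 : ζ ≠ 0 := by
      rintro rfl
      rw [zero_pow hq0.ne'] at hζ
      exact zero_ne_one hζ
    have h1 : A (U ζ) = ∑ i ∈ Finset.range q, ζ • ((ζ⁻¹) ^ (i + 1) • (A ^ (i + 1)) u) := by
      rw [hU]
      simp only [map_sum, map_smul]
      refine Finset.sum_congr rfl fun i _ => ?_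
      rw [smul_smul, pow_succ (ζ⁻¹), mul_comm, mul_assoc, inv_mul_cancel₀ hζ0, mul_one,
        pow_succ' A i]
      rfl
    have h2 : ∑ i ∈ Finset.range q, (ζ⁻¹) ^ (i + 1) • (A ^ (i + 1)) u = U ζ := by
      have h3 := Finset.sum_range_succ (fun i => (ζ⁻¹) ^ i • (A ^ i) u) q
      have h4 := Finset.sum_range_succ' (fun i => (ζ⁻¹) ^ i • (A ^ i) u) q
      rw [h3] at h4
      have h5 : (ζ⁻¹) ^ q • (A ^ q) u = (ζ⁻¹) ^ 0 • (A ^ 0) u := by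
        rw [hu, inv_pow, hζ, inv_one, pow_zero, pow_zero]
        rfl
      rw [h5] at h4
      exact (add_right_cancel h4).symm
    rw [h1, ← Finset.smul_sum, h2]
  have hBU : ∀ ζ : ℂ, ζ ^ q = 1 → B j (U ζ) = θ ζ ^ j • U ζ := fun ζ hζ =>
    hB.eig ζ (hmu ζ hζ) _ (hAU ζ hζ) j
  -- the sum
  have hsum : ∑ ζ ∈ nthRootsFinset q (1 : ℂ), U ζ = (q : ℂ) • u := by
    rw [hU, Finset.sum_comm]
    have h1 : ∀ i ∈ Finset.range q, ∑ ζ ∈ nthRootsFinset q (1 : ℂ), (ζ⁻¹) ^ i • (A ^ i) u =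
        if i = 0 then (q : ℂ) • u else 0 := by
      intro i hi
      rw [← Finset.sum_smul]
      split_ifs with h
      · subst h
        rw [sum_card hq0, pow_zero]
        rfl
      · rw [sum_zero hq0 (Nat.pos_of_ne_zero h) (Finset.mem_range.1 hi), zero_smul]
    rw [Finset.sum_congr rfl h1, Finset.sum_ite_eq' (Finset.range q) 0 (fun _ => (q : ℂ) • u),
      if_pos (Finset.mem_range.2 hq0)]
  have hBu : (q : ℂ) • B j u = ∑ i ∈ Finset.range q,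
      (∑ ζ ∈ nthRootsFinset q (1 : ℂ), θ ζ ^ j * (ζ⁻¹) ^ i) • (A ^ i) u := by
    rw [← map_smul, ← hsum, map_sum]
    have h1 : ∀ ζ ∈ nthRootsFinset q (1 : ℂ), B j (U ζ) =
        ∑ i ∈ Finset.range q, (θ ζ ^ j * (ζ⁻¹) ^ i) • (A ^ i) u := by
      intro ζ hζ
      rw [hBU ζ ((memR hq0).1 hζ), hU]
      simp only [Finset.smul_sum, smul_smul]
    rw [Finset.sum_congr rfl h1, Finset.sum_comm]
    refine Finset.sum_congr rfl fun i _ => ?_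
    rw [Finset.sum_smul]
  have hmem : (q : ℂ) • B j u ∈ Submodule.span ℂ {w : H | ∃ i : ℕ, w = (A ^ i) u ∧
      ((m : ℤ) ∣ (i : ℤ) → (m : ℤ) ∣ j) ∧ ((n : ℤ) ∣ (i : ℤ) → (n : ℤ) ∣ j)} := by
    rw [hBu]
    refine Submodule.sum_mem _ fun i _ => ?_
    by_cases h1 : (m : ℤ) ∣ (i : ℤ) → (m : ℤ) ∣ j
    · by_cases h2 : (n : ℤ) ∣ (i : ℤ) → (n : ℤ) ∣ j
      · exact Submodule.smul_mem _ _ (Submodule.subset_span ⟨i, rfl, h1, h2⟩)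
      · push Not at h2
        rw [coef_zero hq0 hn hnq (Int.natCast_dvd_natCast.1 h2.1)
          (fun ζ hζ => hθ.sumn ζ (hmu ζ hζ) j h2.2), zero_smul]
        exact Submodule.zero_mem _
    · push Not at h1
      rw [coef_zero hq0 hm hmq (Int.natCast_dvd_natCast.1 h1.1)
        (fun ζ hζ => hθ.summ ζ (hmu ζ hζ) j h1.2), zero_smul]
      exact Submodule.zero_mem _
  have h := Submodule.smul_mem _ ((q : ℂ)⁻¹) hmem
  rwa [smul_smul, inv_mul_cancel₀ hqC, one_smul] at h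

end Pool.Agent.H255.BS.B_expd
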