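import Pool.Agent.H255.BS.Defs

/-! The unitary (helper255). -/

set_option autoImplicit false

open Filter Topology Complex
open scoped InnerProductSpace

namespace Pool.Agent.H255.BS.B_fin

open Pool.Agent.H255.BS

theorem red_neg (m n : ℤ) : ∀ L : List (Bool × ℤ), Red (-m) n L ↔ Red m n L
  | [] => Iff.rfl
  | [_] => Iff.rfl
  | x :: y :: L => by
    unfold Red
    rw [red_neg m n (y :: L), Int.neg_dvd]

theorem comm_all {Γ : Type} [Group Γ] {m n : ℤ} {a t : Γ} (h : BSD Γ m n a t) {H : Type}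
    [NormedAddCommGroup H] [InnerProductSpace ℂ H] [CompleteSpace H] (ρ : Γ →* (H →L[ℂ] H))
    (T : H →L[ℂ] H) (ha : T * ρ a = ρ a * T) (ht : T * ρ t = ρ t * T) (g : Γ) :
    T * ρ g = ρ g * T := by
  let K : Subgroup Γ :=
    { carrier := {g | T * ρ g = ρ g * T}
      mul_mem' := by
        intro x y hx hy
        change T * ρ (x * y) = ρ (x * y) * T
        rw [map_mul, ← mul_assoc, show T * ρ x = ρ x * T from hx, mul_assoc,
          show T * ρ y = ρ y * T from hy, mul_assoc]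
      one_mem' := by
        change T * ρ 1 = ρ 1 * T
        rw [map_one, mul_one, one_mul]
      inv_mem' := by
        intro x hx
        change T * ρ x⁻¹ = ρ x⁻¹ * T
        have e1 : ρ x⁻¹ * ρ x = 1 := by rw [← map_mul, inv_mul_cancel, map_one]
        have e2 : ρ x * ρ x⁻¹ = 1 := by rw [← map_mul, mul_inv_cancel, map_one]
        calc T * ρ x⁻¹ = ρ x⁻¹ * ρ x * (T * ρ x⁻¹) := by rw [e1, one_mul]
          _ = ρ x⁻¹ * (ρ x * T) * ρ x⁻¹ := by simp only [mul_assoc]
          _ = ρ x⁻¹ * (T * ρ x) * ρ x⁻¹ := by rw [show T * ρ x = ρ x * T from hx]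
          _ = ρ x⁻¹ * T * (ρ x * ρ x⁻¹) := by simp only [mul_assoc]
          _ = ρ x⁻¹ * T := by rw [e2, mul_one] }
  have hK : K = ⊤ := h.gen K ha ht
  have : g ∈ K := by rw [hK]; trivial
  exact this

theorem star_all {Γ : Type} [Group Γ] {m n : ℤ} {a t : Γ} (h : BSD Γ m n a t) {H : Type}
    [NormedAddCommGroup H] [InnerProductSpace ℂ H] [CompleteSpace H] (ρ : Γ →* (H →L[ℂ] H))
    (ha : star (ρ a) = ρ a⁻¹) (ht : star (ρ t) = ρ t⁻¹) (g : Γ) :
    star (ρ g) = ρ g⁻¹ := by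
  let K : Subgroup Γ :=
    { carrier := {g | star (ρ g) = ρ g⁻¹}
      mul_mem' := by
        intro x y hx hy
        change star (ρ (x * y)) = ρ (x * y)⁻¹
        rw [map_mul, star_mul, show star (ρ x) = ρ x⁻¹ from hx, show star (ρ y) = ρ y⁻¹ from hy,
          mul_inv_rev, map_mul]
      one_mem' := by
        change star (ρ 1) = ρ 1⁻¹
        rw [inv_one, map_one, star_one]
      inv_mem' := by
        intro x hx
        change star (ρ x⁻¹) = ρ x⁻¹⁻¹
        rw [inv_inv, ← show star (ρ x) = ρ x⁻¹ from hx, star_star] }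
  have hK : K = ⊤ := h.gen K ha ht
  have : g ∈ K := by rw [hK]; trivial
  exact this

theorem r (h1 : S_brit) (h2 : S_grp) (h3 : S_theta) (h4 : S_bfam) (h5 : S_expd) (h6 : S_rel)
    (h7 : S_com) (h8 : S_coef) (h9 : S_gns) (h10 : S_qreg) (h11 : S_tot) : S_fin := by
  intro m n hm hn hmn
  have hm' : (m : ℤ) ≠ 0 := by exact_mod_cast hm.ne'
  have hn' : (n : ℤ) ≠ 0 := by exact_mod_cast hn.ne'
  have hmm : (-(m : ℤ)) ≠ 0 := neg_ne_zero.2 hm'
  have hD := h2 m n hm' hn' (h1 m n hm' hn')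
  have hD' := h2 (-m) n hmm hn' (h1 (-m) n hmm hn')
  set a := ga m n with ha
  set t := gt m n with ht
  set a' := ga (-m) n with ha'
  set t' := gt (-m) n with ht'
  obtain ⟨⟨ρ, hρs, hρ⟩, hnorm, horth, htot, hext⟩ := h10 (BSG m n) (Subgroup.zpowers a)
  set δ : L2 (BSG m n ⧸ Subgroup.zpowers a) := dl ((1 : BSG m n) : BSG m n ⧸ Subgroup.zpowers a)
    with hδ
  have hρδ : ∀ g : BSG m n, ρ g δ = dl (g : BSG m n ⧸ Subgroup.zpowers a) := by
    intro g
    rw [hδ, hρ]
    congr 1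
    change ((g * 1 : BSG m n) : BSG m n ⧸ Subgroup.zpowers a) = _
    rw [mul_one]
  have hinv : ∀ g : BSG m n, ρ g⁻¹ * ρ g = 1 := fun g => by
    rw [← map_mul, inv_mul_cancel, map_one]
  have hinv' : ∀ g : BSG m n, ρ g * ρ g⁻¹ = 1 := fun g => by
    rw [← map_mul, mul_inv_cancel, map_one]
  have hfix : ∀ g : BSG m n, g ∈ Subgroup.zpowers a → ρ g δ = δ := by
    intro g hg
    rw [hρδ, hδ]
    congr 1
    rw [QuotientGroup.eq]
    simpa using (Subgroup.zpowers a).inv_mem hg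
  have hzero : ∀ g : BSG m n, g ∉ Subgroup.zpowers a → ⟪δ, ρ g δ⟫_ℂ = 0 := by
    intro g hg
    rw [hρδ, hδ]
    refine horth _ _ fun h => hg ?_
    rw [QuotientGroup.eq] at h
    simpa using h
  set A := ρ a with hA
  set T := ρ t with hT
  have hAs : star A * A = 1 := by rw [hA, hρs, hinv]
  have hAs' : A * star A = 1 := by rw [hA, hρs, hinv']
  have hTs : star T * T = 1 := by rw [hT, hρs, hinv]
  have hTs' : T * star T = 1 := by rw [hT, hρs, hinv']
  have hPP : PP (mu m n) A := by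
    refine h11 m n hm hn _ A hAs hAs' fun v hv => htot v fun x => ?_
    induction x using QuotientGroup.induction_on with
    | H g =>
      obtain ⟨k, -, hk⟩ := hD.ord g
      refine hv k _ ?_
      rw [Int.natAbs_natCast, Int.natAbs_natCast] at hk
      rw [hA, ← map_pow, hρ]
      congr 1
      change ((a ^ ((m * n) ^ k) * g : BSG m n) : BSG m n ⧸ Subgroup.zpowers a) = _
      rw [QuotientGroup.eq]
      have := (Subgroup.zpowers a).inv_mem hk
      simpa [mul_assoc] using this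
  obtain ⟨θ, F, hθ⟩ := h3 m n hm hn hmn
  obtain ⟨B, hB⟩ := h4 _ (mu m n) A hPP θ hθ.norm
  have hE : Expd m n A B := h5 _ m n hm hn A hPP θ F hθ B hB
  have h1mu : (1 : ℂ) ∈ mu m n := ⟨0, one_pow _⟩
  have hAδ : A δ = (1 : ℂ) • δ := by
    rw [one_smul]
    exact hfix a (Subgroup.mem_zpowers a)
  have hBδ : ∀ j : ℤ, B j δ = δ := by
    intro j
    rw [hB.eig 1 h1mu δ hAδ j, hθ.one, one_zpow, one_smul]
  have hrel : T * A ^ m = A ^ n * T := by
    have := congrArg ρ hD.rel
    rw [map_mul, map_mul] at this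
    rwa [zpow_natCast, zpow_natCast, map_pow, map_pow] at this
  have hrelB : T * B (-(m : ℤ)) = B (n : ℤ) * T :=
    h6 _ m n hm hn A hPP θ F hθ B hB T hTs hTs' hrel
  have hBB : ∀ j : ℤ, B j * B (-j) = 1 := fun j => by rw [← hB.add, add_neg_cancel, hB.zero]
  have hBB' : ∀ j : ℤ, B (-j) * B j = 1 := fun j => by rw [← hB.add, neg_add_cancel, hB.zero]
  -- the representation of `BS(-m,n)`
  let ub : (L2 (BSG m n ⧸ Subgroup.zpowers a) →L[ℂ] L2 (BSG m n ⧸ Subgroup.zpowers a))ˣ :=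
    ⟨B 1, B (-1), hBB 1, hBB' 1⟩
  let us : (L2 (BSG m n ⧸ Subgroup.zpowers a) →L[ℂ] L2 (BSG m n ⧸ Subgroup.zpowers a))ˣ :=
    ⟨T, star T, hTs', hTs⟩
  have hub : ∀ j : ℤ, ((ub ^ j : (L2 (BSG m n ⧸ Subgroup.zpowers a) →L[ℂ]
      L2 (BSG m n ⧸ Subgroup.zpowers a))ˣ) : L2 (BSG m n ⧸ Subgroup.zpowers a) →L[ℂ]
      L2 (BSG m n ⧸ Subgroup.zpowers a)) = B j := by
    intro j
    induction j using Int.induction_on with
    | zero => rw [zpow_zero, Units.val_one, hB.zero]
    | succ i ih =>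
      rw [zpow_add, zpow_one, Units.val_mul, ih, hB.add]
    | pred i ih =>
      rw [sub_eq_add_neg, zpow_add, zpow_neg_one, Units.val_mul, ih, hB.add]
      rfl
  obtain ⟨f, hfa, hft⟩ := hD'.univ _ ub us (by
    refine Units.ext ?_
    rw [Units.val_mul, Units.val_mul, hub, hub]
    exact hrelB)
  let ρ' : BSG (-m) n →* (L2 (BSG m n ⧸ Subgroup.zpowers a) →L[ℂ]
    L2 (BSG m n ⧸ Subgroup.zpowers a)) := (Units.coeHom _).comp f
  have hρ'a : ρ' a' = B 1 := by
    show Units.val (f a') = _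
    rw [hfa]
  have hρ't : ρ' t' = T := by
    show Units.val (f t') = _
    rw [hft]
  have hρ'z : ∀ j : ℤ, ρ' (a' ^ j) = B j := by
    intro j
    show Units.val (f (a' ^ j)) = _
    rw [map_zpow, hfa, hub]
  have hρ'ti : ρ' t'⁻¹ = star T := by
    show Units.val (f t'⁻¹) = _
    rw [map_inv, hft]
    rfl
  have hρ's : ∀ g, star (ρ' g) = ρ' g⁻¹ := by
    refine star_all hD' ρ' ?_ ?_
    · rw [hρ'a, hB.star_eq, ← hρ'z, zpow_neg_one]
    · rw [hρ't, hρ'ti]
  have hvec : ∀ L : List (Bool × ℤ), ρ' (wd a' t' L) δ = vec B T δ L := by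
    intro L
    induction L with
    | nil => rw [wd, vec, map_one]; rfl
    | cons x L ih =>
      rw [wd, vec, map_mul, map_mul, hρ'z]
      change ρ' (tp t' x.1) (B x.2 (ρ' (wd a' t' L) δ)) = _
      rw [ih]
      congr 1
      unfold tp
      split
      · exact hρ't
      · exact hρ'ti
  have hfix' : ∀ g, g ∈ Subgroup.zpowers a' → ρ' g δ = δ := by
    rintro _ ⟨j, rfl⟩
    change ρ' (a' ^ j) δ = δ
    rw [hρ'z, hBδ]
  have hzero' : ∀ g, g ∉ Subgroup.zpowers a' → ⟪δ, ρ' g δ⟫_ℂ = 0 := by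
    intro g hg
    obtain ⟨k, L, hL, rfl⟩ := hD'.norm g
    have hL0 : L ≠ [] := by
      rintro rfl
      refine hg ?_
      rw [wd, mul_one]
      exact Subgroup.zpow_mem_zpowers a' k
    rw [map_mul, hρ'z]
    change ⟪δ, B k (ρ' (wd a' t' L) δ)⟫_ℂ = 0
    rw [hvec, ← ContinuousLinearMap.adjoint_inner_left, ← ContinuousLinearMap.star_eq_adjoint,
      hB.star_eq, hBδ]
    exact h8 _ m n hm hn _ a t hD ρ δ hρs hfix hzero B hBδ hE L hL0 ((red_neg m n L).1 hL)
  -- cyclicity
  let W : Submodule ℂ (L2 (BSG m n ⧸ Subgroup.zpowers a)) :=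
    (Submodule.span ℂ {w | ∃ g, w = ρ' g δ})ᗮ
  have hWm : ∀ v, v ∈ W ↔ ∀ g, ⟪ρ' g δ, v⟫_ℂ = 0 := by
    intro v
    rw [Submodule.mem_orthogonal]
    constructor
    · intro h g
      exact h _ (Submodule.subset_span ⟨g, rfl⟩)
    · intro h u hu
      induction hu using Submodule.span_induction with
      | mem x hx => obtain ⟨g, rfl⟩ := hx; exact h g
      | zero => exact inner_zero_left _
      | add x y _ _ hx hy => rw [inner_add_left, hx, hy, add_zero]
      | smul c x _ hx => rw [inner_smul_left, hx, mul_zero]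
  have hWinv : ∀ (g : BSG (-m) n) (v), v ∈ W → ρ' g v ∈ W := by
    intro g v hv
    rw [hWm] at hv ⊢
    intro h
    rw [← ContinuousLinearMap.adjoint_inner_left, ← ContinuousLinearMap.star_eq_adjoint, hρ's]
    have : ρ' g⁻¹ (ρ' h δ) = ρ' (g⁻¹ * h) δ := by rw [map_mul]; rfl
    rw [this]
    exact hv _
  haveI : W.HasOrthogonalProjection := by
    haveI : CompleteSpace W := (Submodule.isClosed_orthogonal _).completeSpace_coe
    infer_instance
  set P : L2 (BSG m n ⧸ Subgroup.zpowers a) →L[ℂ] L2 (BSG m n ⧸ Subgroup.zpowers a) :=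
    W.starProjection with hP
  have hPs : star P = P := by
    rw [ContinuousLinearMap.star_eq_adjoint]
    exact (ContinuousLinearMap.isSelfAdjoint_iff'.1 (isSelfAdjoint_starProjection W))
  have hPmem : ∀ v, P v ∈ W := fun v => Submodule.starProjection_apply_mem W v
  have hPfix : ∀ v, v ∈ W → P v = v := fun v hv => Submodule.starProjection_eq_self_iff.2 hv
  have hPcomm : ∀ g, P * ρ' g = ρ' g * P := by
    have e1 : ∀ g, P * ρ' g * P = ρ' g * P := by
      intro g
      refine ContinuousLinearMap.ext fun v => ?_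
      change P (ρ' g (P v)) = ρ' g (P v)
      exact hPfix _ (hWinv g _ (hPmem v))
    intro g
    have e2 := congrArg star (e1 g⁻¹)
    rw [star_mul, star_mul, star_mul, hPs, hρ's, inv_inv, ← mul_assoc] at e2
    rw [← e2, e1]
  have hPA : P * A = A * P := by
    refine (h7 _ (mu m n) A hPP θ hθ.norm hθ.inj B hB P).2 ?_
    rw [← hρ'a]
    exact hPcomm a'
  have hPT : P * T = T * P := by
    rw [← hρ't]
    exact hPcomm t'
  have hPρ : ∀ g, P * ρ g = ρ g * P := comm_all hD ρ P hPA hPT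
  have hcyc : ∀ v, (∀ g, ⟪ρ' g δ, v⟫_ℂ = 0) → v = 0 := by
    intro v hv
    have hvW := (hWm v).2 hv
    refine htot v fun x => ?_
    induction x using QuotientGroup.induction_on with
    | H g =>
      rw [← hρδ, ← ContinuousLinearMap.adjoint_inner_right, ← ContinuousLinearMap.star_eq_adjoint,
        hρs]
      have e1 : ρ g⁻¹ v ∈ W := by
        rw [← hPfix v hvW]
        have := congrArg (fun S : L2 (BSG m n ⧸ Subgroup.zpowers a) →L[ℂ]
          L2 (BSG m n ⧸ Subgroup.zpowers a) => S v) (hPρ g⁻¹)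
        change P (ρ g⁻¹ v) = ρ g⁻¹ (P v) at this
        rw [← this]
        exact hPmem _
      have e2 := (hWm _).1 e1 1
      rwa [map_one] at e2
  obtain ⟨V, hV⟩ := h9 _ (BSG (-m) n) (Subgroup.zpowers a') ρ' δ hρ's (hnorm _) hfix' hzero' hcyc
  refine ⟨V.symm, fun S => ?_⟩
  obtain ⟨⟨ρ₂, hρ₂s, hρ₂⟩, -, -, -, hext'⟩ := h10 (BSG (-m) n) (Subgroup.zpowers a')
  -- `V` intertwines
  have hVi : ∀ (g : BSG (-m) n) (w), V (ρ₂ g w) = ρ' g (V w) := by
    intro g w
    have e1 : ρ₂ g = (V.symm : L2 (BSG m n ⧸ Subgroup.zpowers a) →L[ℂ]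
        L2 (BSG (-m) n ⧸ Subgroup.zpowers a')) ∘L ρ' g ∘L
        (V : L2 (BSG (-m) n ⧸ Subgroup.zpowers a') →L[ℂ]
          L2 (BSG m n ⧸ Subgroup.zpowers a)) := by
      refine hext' _ _ fun x => ?_
      induction x using QuotientGroup.induction_on with
      | H h =>
        rw [hρ₂]
        change dl (g • (h : BSG (-m) n ⧸ Subgroup.zpowers a')) = V.symm (ρ' g (V (dl _)))
        rw [hV, V.eq_symm_apply]
        change V (dl ((g * h : BSG (-m) n) : BSG (-m) n ⧸ Subgroup.zpowers a')) = _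
        rw [hV, map_mul]
        rfl
    rw [e1]
    change V (V.symm (ρ' g (V w))) = _
    rw [V.apply_symm_apply]
  have hH1 : S ∈ Hecke (Subgroup.zpowers a) ↔ ∀ g, S * ρ g = ρ g * S := by
    constructor
    · intro h g
      exact h g (ρ g) (hρ g)
    · intro h g S' hS'
      rw [hext S' (ρ g) fun x => by rw [hS', hρ]]
      exact h g
  have hH2 : V.symm.conjStarAlgEquiv S ∈ Hecke (Subgroup.zpowers a') ↔
      ∀ g, S * ρ' g = ρ' g * S := by
    have e0 : ∀ w, V.symm.conjStarAlgEquiv S w = V.symm (S (V w)) := fun w => rfl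
    have e1 : ∀ g, V.symm.conjStarAlgEquiv S * ρ₂ g = ρ₂ g * V.symm.conjStarAlgEquiv S ↔
        S * ρ' g = ρ' g * S := by
      intro g
      constructor
      · intro h
        refine ContinuousLinearMap.ext fun w => ?_
        have h2 := congrArg (fun R : L2 (BSG (-m) n ⧸ Subgroup.zpowers a') →L[ℂ]
          L2 (BSG (-m) n ⧸ Subgroup.zpowers a') => V (R (V.symm w))) h
        change V (V.symm.conjStarAlgEquiv S (ρ₂ g (V.symm w))) =
          V (ρ₂ g (V.symm.conjStarAlgEquiv S (V.symm w))) at h2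
        rw [e0, e0, V.apply_symm_apply, hVi, hVi, V.apply_symm_apply, V.apply_symm_apply] at h2
        exact h2
      · intro h
        refine ContinuousLinearMap.ext fun w => ?_
        change V.symm.conjStarAlgEquiv S (ρ₂ g w) = ρ₂ g (V.symm.conjStarAlgEquiv S w)
        apply V.injective
        rw [hVi, e0, e0, V.apply_symm_apply, V.apply_symm_apply, hVi]
        exact congrArg (fun R : L2 (BSG m n ⧸ Subgroup.zpowers a) →L[ℂ]
          L2 (BSG m n ⧸ Subgroup.zpowers a) => R (V w)) h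
    constructor
    · intro h g
      exact (e1 g).1 (h g (ρ₂ g) (hρ₂ g))
    · intro h g S' hS'
      rw [hext' S' (ρ₂ g) fun x => by rw [hS', hρ₂]]
      exact (e1 g).2 (h g)
  rw [hH1, hH2]
  have hC := h7 _ (mu m n) A hPP θ hθ.norm hθ.inj B hB S
  constructor
  · intro h
    refine comm_all hD' ρ' S ?_ ?_
    · rw [hρ'a]
      exact hC.1 (h a)
    · rw [hρ't]
      exact h t
  · intro h
    refine comm_all hD ρ S ?_ ?_
    · refine hC.2 ?_
      rw [← hρ'a]
      exact h a'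
    · have := h t'
      rwa [hρ't] at this

end Pool.Agent.H255.BS.B_fin
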