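import Pool.Agent.H255.BS.Defs

/-!
# Baumslag-Solitar groups: normal forms and finite orbits
-/

set_option autoImplicit false

namespace Pool.Agent.H255.BS.B_grp

open Pool.Agent.H255.BS

lemma red_tail {m n : ℤ} {x : Bool × ℤ} {L : List (Bool × ℤ)} (h : Red m n (x :: L)) :
    Red m n L := by
  cases L with
  | nil => trivial
  | cons y L => exact h.2.2

section

variable {Γ : Type} [Group Γ] {m n : ℤ} {a t : Γ}

lemma cj (h : t * a ^ m = a ^ n * t) (s : ℤ) : t * a ^ (m * s) * t⁻¹ = a ^ (n * s) := by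
  have h1 : t * a ^ m * t⁻¹ = a ^ n := by rw [h, mul_inv_cancel_right]
  rw [zpow_mul, zpow_mul, ← h1, conj_zpow]

lemma cj' (h : t * a ^ m = a ^ n * t) (s : ℤ) : t⁻¹ * a ^ (n * s) * t = a ^ (m * s) := by
  rw [← cj h s]
  simp only [mul_assoc, inv_mul_cancel, inv_mul_cancel_left, mul_one]

/-- the elements with a reduced form -/
def NF (m n : ℤ) (a t : Γ) : Set Γ :=
  {g | ∃ (k : ℤ) (L : List (Bool × ℤ)), Red m n L ∧ g = a ^ k * wd a t L}

lemma nf_a {x : Γ} (hx : x ∈ NF m n a t) (j : ℤ) : a ^ j * x ∈ NF m n a t := by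
  obtain ⟨k, L, hL, rfl⟩ := hx
  exact ⟨j + k, L, hL, by rw [zpow_add, mul_assoc]⟩

lemma nf_t (h : t * a ^ m = a ^ n * t) {x : Γ} (hx : x ∈ NF m n a t) (e : Bool) :
    tp t e * x ∈ NF m n a t := by
  obtain ⟨k, L, hL, rfl⟩ := hx
  cases L with
  | nil =>
    refine ⟨0, [(e, k)], trivial, ?_⟩
    show tp t e * (a ^ k * 1) = a ^ (0 : ℤ) * (tp t e * a ^ k * 1)
    rw [zpow_zero, one_mul, mul_one, mul_one]
  | cons y L =>
    obtain ⟨e', k'⟩ := y
    by_cases hR : Red m n ((e, k) :: (e', k') :: L)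
    · refine ⟨0, _, hR, ?_⟩
      show tp t e * (a ^ k * wd a t ((e', k') :: L)) =
        a ^ (0 : ℤ) * (tp t e * a ^ k * wd a t ((e', k') :: L))
      rw [zpow_zero, one_mul, mul_assoc]
    · have hL' := red_tail hL
      cases e <;> cases e'
      · exact absurd ⟨fun h => absurd h Bool.false_ne_true, fun _ h => absurd h Bool.false_ne_true,
          hL⟩ hR
      · by_cases hk : n ∣ k
        · obtain ⟨s, rfl⟩ := hk
          refine ⟨m * s + k', L, hL', ?_⟩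
          show t⁻¹ * (a ^ (n * s) * (t * a ^ k' * wd a t L)) = _
          rw [zpow_add, ← cj' h s]
          simp only [mul_assoc]
        · exact absurd ⟨fun h => absurd h Bool.false_ne_true, fun _ _ => hk, hL⟩ hR
      · by_cases hk : m ∣ k
        · obtain ⟨s, rfl⟩ := hk
          refine ⟨n * s + k', L, hL', ?_⟩
          show t * (a ^ (m * s) * (t⁻¹ * a ^ k' * wd a t L)) = _
          rw [zpow_add, ← cj h s]
          simp only [mul_assoc]
        · exact absurd ⟨fun _ _ => hk, fun h => absurd h.symm Bool.false_ne_true, hL⟩ hR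
      · exact absurd ⟨fun _ h => absurd h.symm Bool.false_ne_true,
          fun h => absurd h.symm Bool.false_ne_true, hL⟩ hR

/-- the elements which preserve a set (with their inverses), acting on the left -/
def KL (S : Set Γ) : Subgroup Γ where
  carrier := {g | (∀ x ∈ S, g * x ∈ S) ∧ ∀ x ∈ S, g⁻¹ * x ∈ S}
  mul_mem' := by
    rintro g h ⟨h1, h2⟩ ⟨h3, h4⟩
    refine ⟨fun x hx => ?_, fun x hx => ?_⟩
    · rw [mul_assoc]
      exact h1 _ (h3 x hx)
    · rw [mul_inv_rev, mul_assoc]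
      exact h4 _ (h2 x hx)
  one_mem' := ⟨fun x hx => by rwa [one_mul], fun x hx => by rwa [inv_one, one_mul]⟩
  inv_mem' := by
    rintro g ⟨h1, h2⟩
    exact ⟨h2, fun x hx => by rw [inv_inv]; exact h1 x hx⟩

/-- the elements which preserve a set (with their inverses), acting on the right -/
def KR (S : Set Γ) : Subgroup Γ where
  carrier := {g | (∀ x ∈ S, x * g ∈ S) ∧ ∀ x ∈ S, x * g⁻¹ ∈ S}
  mul_mem' := by
    rintro g h ⟨h1, h2⟩ ⟨h3, h4⟩
    refine ⟨fun x hx => ?_, fun x hx => ?_⟩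
    · rw [← mul_assoc]
      exact h3 _ (h1 x hx)
    · rw [mul_inv_rev, ← mul_assoc]
      exact h2 _ (h4 x hx)
  one_mem' := ⟨fun x hx => by rwa [mul_one], fun x hx => by rwa [inv_one, mul_one]⟩
  inv_mem' := by
    rintro g ⟨h1, h2⟩
    exact ⟨h2, fun x hx => by rw [inv_inv]; exact h1 x hx⟩

lemma norm_all (h : t * a ^ m = a ^ n * t) (hg : ∀ K : Subgroup Γ, a ∈ K → t ∈ K → K = ⊤) (g : Γ) :
    g ∈ NF m n a t := by
  have h1 : KL (NF m n a t) = ⊤ := by
    refine hg _ ⟨fun x hx => ?_, fun x hx => ?_⟩ ⟨fun x hx => nf_t h hx true,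
      fun x hx => nf_t h hx false⟩
    · have := nf_a hx 1
      rwa [zpow_one] at this
    · have := nf_a hx (-1)
      rwa [zpow_neg_one] at this
  have h2 : g ∈ KL (NF m n a t) := by
    rw [h1]
    exact Subgroup.mem_top g
  have h3 : (1 : Γ) ∈ NF m n a t := ⟨0, [], trivial, by
    show (1 : Γ) = a ^ (0 : ℤ) * 1
    rw [zpow_zero, one_mul]⟩
  have h4 := h2.1 1 h3
  rwa [mul_one] at h4

/-- the elements with finite orbits -/
def FO (N : ℕ) (a : Γ) : Set Γ :=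
  {g | ∃ k : ℕ, 1 ≤ k ∧ g⁻¹ * a ^ (N ^ k) * g ∈ Subgroup.zpowers a}

lemma fo_a {N : ℕ} {g : Γ} (hg : g ∈ FO N a) {b : Γ} (hb : b ∈ Subgroup.zpowers a) :
    g * b ∈ FO N a := by
  obtain ⟨k, hk, h⟩ := hg
  refine ⟨k, hk, ?_⟩
  have e : (g * b)⁻¹ * a ^ (N ^ k) * (g * b) = b⁻¹ * (g⁻¹ * a ^ (N ^ k) * g) * b := by
    rw [mul_inv_rev]
    simp only [mul_assoc]
  rw [e]
  exact (Subgroup.zpowers a).mul_mem ((Subgroup.zpowers a).mul_mem
    ((Subgroup.zpowers a).inv_mem hb) h) hb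

lemma fo_t {N : ℕ} {g : Γ} (hg : g ∈ FO N a) {b : Γ}
    (hb : ∀ r : ℤ, b⁻¹ * a ^ (r * N) * b ∈ Subgroup.zpowers a) : g * b ∈ FO N a := by
  obtain ⟨k, hk, h⟩ := hg
  refine ⟨k + 1, Nat.le_add_left 1 k, ?_⟩
  obtain ⟨r, hr⟩ := Subgroup.mem_zpowers_iff.1 h
  have e1 : g⁻¹ * a ^ (N ^ (k + 1)) * g = a ^ (r * N) := by
    have e2 := conj_pow (a := g⁻¹) (b := a ^ (N ^ k)) (i := N)
    rw [inv_inv, ← hr, ← pow_mul, ← pow_succ] at e2
    rw [← e2, zpow_mul, zpow_natCast]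
  have e : (g * b)⁻¹ * a ^ (N ^ (k + 1)) * (g * b) =
      b⁻¹ * (g⁻¹ * a ^ (N ^ (k + 1)) * g) * b := by
    rw [mul_inv_rev]
    simp only [mul_assoc]
  rw [e, e1]
  exact hb r

lemma ord_all (h : t * a ^ m = a ^ n * t) (hg : ∀ K : Subgroup Γ, a ∈ K → t ∈ K → K = ⊤) (g : Γ) :
    g ∈ FO (m.natAbs * n.natAbs) a := by
  have ha : a ∈ Subgroup.zpowers a := Subgroup.mem_zpowers a
  have hmd : m ∣ ((m.natAbs * n.natAbs : ℕ) : ℤ) := by
    rw [Nat.cast_mul]
    exact Dvd.dvd.mul_right (Int.dvd_natAbs.2 dvd_rfl) _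
  have hnd : n ∣ ((m.natAbs * n.natAbs : ℕ) : ℤ) := by
    rw [Nat.cast_mul]
    exact Dvd.dvd.mul_left (Int.dvd_natAbs.2 dvd_rfl) _
  have h1 : KR (FO (m.natAbs * n.natAbs) a) = ⊤ := by
    refine hg _ ⟨fun x hx => fo_a hx ha, fun x hx => fo_a hx ((Subgroup.zpowers a).inv_mem ha)⟩
      ⟨fun x hx => fo_t hx fun r => ?_, fun x hx => fo_t hx fun r => ?_⟩
    · obtain ⟨s, hs⟩ := Dvd.dvd.mul_left hnd r
      rw [hs, cj' h s]
      exact Subgroup.zpow_mem_zpowers a _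
    · obtain ⟨s, hs⟩ := Dvd.dvd.mul_left hmd r
      rw [hs, inv_inv, cj h s]
      exact Subgroup.zpow_mem_zpowers a _
  have h2 : g ∈ KR (FO (m.natAbs * n.natAbs) a) := by
    rw [h1]
    exact Subgroup.mem_top g
  have h3 : (1 : Γ) ∈ FO (m.natAbs * n.natAbs) a := ⟨1, le_rfl, by
    rw [inv_one, one_mul, mul_one]
    exact Subgroup.npow_mem_zpowers a _⟩
  have h4 := h2.1 1 h3
  rwa [one_mul] at h4

end

lemma gen_all (m n : ℤ) (K : Subgroup (BSG m n)) (ha : ga m n ∈ K) (ht : gt m n ∈ K) : K = ⊤ := by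
  rw [eq_top_iff, ← PresentedGroup.closure_range_of (rels m n), Subgroup.closure_le]
  rintro _ ⟨x, rfl⟩
  cases x
  · exact ha
  · exact ht

lemma rel_all (m n : ℤ) : gt m n * ga m n ^ m = ga m n ^ n * gt m n := by
  have h := PresentedGroup.one_of_mem (rels := rels m n) (Set.mem_singleton _)
  rw [map_mul, map_mul, map_mul, map_inv, map_inv, map_zpow, map_zpow] at h
  have h1 : gt m n * ga m n ^ m * (gt m n)⁻¹ * (ga m n ^ n)⁻¹ = 1 := h
  rw [mul_inv_eq_one] at h1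
  rw [← h1, inv_mul_cancel_right]

lemma univ_all (m n : ℤ) (Q : Type) [Group Q] (b s : Q) (h : s * b ^ m = b ^ n * s) :
    ∃ f : BSG m n →* Q, f (ga m n) = b ∧ f (gt m n) = s := by
  have h1 : ∀ r ∈ rels m n, FreeGroup.lift (fun x : Bool => if x then s else b) r = 1 := by
    intro r hr
    rw [Set.mem_singleton_iff.1 hr, map_mul, map_mul, map_mul, map_inv, map_inv, map_zpow, map_zpow,
      FreeGroup.lift_apply_of, FreeGroup.lift_apply_of]
    show s * b ^ m * s⁻¹ * (b ^ n)⁻¹ = 1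
    rw [h, mul_inv_cancel_right, mul_inv_cancel]
  exact ⟨PresentedGroup.toGroup h1, PresentedGroup.toGroup.of h1, PresentedGroup.toGroup.of h1⟩

theorem r : S_grp := by
  intro m n _ _ hb
  have hrel := rel_all m n
  exact ⟨hrel, hb, norm_all hrel (gen_all m n), ord_all hrel (gen_all m n),
    fun Q _ b s h => univ_all m n Q b s h, gen_all m n⟩

end Pool.Agent.H255.BS.B_grp
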