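import Pool.Agent.H255.BS.Defs

set_option autoImplicit false

namespace Pool.Agent.H255.BS.B_theta

open Pool.Agent.H255.BS

noncomputable section

/-- elements of order dividing a power of `p` -/
def M (p : ℕ) : Set ℂ := {x | ∃ k : ℕ, x ^ (p ^ k) = 1}

/-- level -/
def lv (p : ℕ) (x : ℂ) : ℕ := sInf {k | x ^ (p ^ k) = 1}

open Classical in
/-- the twisted element -/
def ph (p : ℕ) (x : ℂ) : ℂ := if Even (lv p x) then x else x⁻¹

theorem up {p k k' : ℕ} {x : ℂ} (h : x ^ (p ^ k) = 1) (hk : k ≤ k') : x ^ (p ^ k') = 1 := by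
  obtain ⟨c, hc⟩ := pow_dvd_pow p hk
  rw [hc, pow_mul, h, one_pow]

theorem M_mul {p : ℕ} {x y : ℂ} (hx : x ∈ M p) (hy : y ∈ M p) : x * y ∈ M p := by
  obtain ⟨a, ha⟩ := hx
  obtain ⟨b, hb⟩ := hy
  exact ⟨max a b, by rw [mul_pow, up ha (le_max_left a b), up hb (le_max_right a b), one_mul]⟩

theorem M_inv {p : ℕ} {x : ℂ} (hx : x ∈ M p) : x⁻¹ ∈ M p := by
  obtain ⟨a, ha⟩ := hx
  exact ⟨a, by rw [inv_pow, ha, inv_one]⟩

theorem M_pow {p : ℕ} {x : ℂ} (hx : x ∈ M p) (q : ℕ) : x ^ q ∈ M p := by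
  obtain ⟨a, ha⟩ := hx
  exact ⟨a, by rw [← pow_mul, mul_comm, pow_mul, ha, one_pow]⟩

theorem M_one (p : ℕ) : (1 : ℂ) ∈ M p := ⟨0, one_pow _⟩

theorem M_norm {p : ℕ} (hp : 0 < p) {x : ℂ} (hx : x ∈ M p) : ‖x‖ = 1 := by
  obtain ⟨a, ha⟩ := hx
  exact Complex.norm_eq_one_of_pow_eq_one ha (pow_pos hp a).ne'

theorem M_ne {p : ℕ} (hp : 0 < p) {x : ℂ} (hx : x ∈ M p) : x ≠ 0 := by
  intro h
  have := M_norm hp hx
  rw [h, norm_zero] at this
  exact zero_ne_one this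

theorem cop_one {a b : ℕ} (h : Nat.Coprime a b) {w : ℂ} (h1 : w ^ a = 1) (h2 : w ^ b = 1) :
    w = 1 := by
  have h3 := Nat.dvd_gcd (orderOf_dvd_of_pow_eq_one h1) (orderOf_dvd_of_pow_eq_one h2)
  rw [h, Nat.dvd_one, orderOf_eq_one_iff] at h3
  exact h3

theorem M_inter {m n : ℕ} (h : Nat.Coprime m n) {w : ℂ} (h1 : w ∈ M m) (h2 : w ∈ M n) :
    w = 1 := by
  obtain ⟨a, ha⟩ := h1
  obtain ⟨b, hb⟩ := h2
  exact cop_one (Nat.Coprime.pow a b h) ha hb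

theorem M_uniq {m n : ℕ} (hm : 0 < m) (hn : 0 < n) (h : Nat.Coprime m n) {x x' y y' : ℂ}
    (hx : x ∈ M m) (hx' : x' ∈ M m) (hy : y ∈ M n) (hy' : y' ∈ M n) (e : x * y = x' * y') :
    x = x' ∧ y = y' := by
  have n1 := M_ne hm hx
  have n2 := M_ne hm hx'
  have n3 := M_ne hn hy
  have n4 := M_ne hn hy'
  have e1 : x * x'⁻¹ = y' * y⁻¹ := by
    field_simp
    rw [e]
  have hw : x * x'⁻¹ = 1 := M_inter h (M_mul hx (M_inv hx')) (by
    rw [e1]
    exact M_mul hy' (M_inv hy))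
  have e2 : x = x' := by
    field_simp at hw
    exact hw
  refine ⟨e2, ?_⟩
  rw [e2] at e
  exact mul_left_cancel₀ n2 e

theorem M_dec {m n : ℕ} (hm : 0 < m) (hn : 0 < n) (h : Nat.Coprime m n) {z : ℂ}
    (hz : z ∈ mu m n) : ∃ x ∈ M m, ∃ y ∈ M n, z = x * y := by
  obtain ⟨k, hk⟩ := hz
  have hz0 : z ≠ 0 := by
    intro h0
    rw [h0, zero_pow (pow_pos (Nat.mul_pos hm hn) k).ne'] at hk
    exact zero_ne_one hk
  have hb := Nat.gcd_eq_gcd_ab (m ^ k) (n ^ k)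
  have hg : Nat.gcd (m ^ k) (n ^ k) = 1 := Nat.Coprime.pow k k h
  rw [hg] at hb
  set u := Nat.gcdA (m ^ k) (n ^ k)
  set v := Nat.gcdB (m ^ k) (n ^ k)
  rw [mul_pow] at hk
  refine ⟨z ^ (((n ^ k : ℕ) : ℤ) * v), ⟨k, ?_⟩, z ^ (((m ^ k : ℕ) : ℤ) * u), ⟨k, ?_⟩, ?_⟩
  · rw [← zpow_natCast, ← zpow_mul]
    have : ((n ^ k : ℕ) : ℤ) * v * ((m ^ k : ℕ) : ℤ) = ((m ^ k * n ^ k : ℕ) : ℤ) * v := by
      push_cast
      ring
    rw [this, zpow_mul, zpow_natCast, hk, one_zpow]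
  · rw [← zpow_natCast, ← zpow_mul]
    have : ((m ^ k : ℕ) : ℤ) * u * ((n ^ k : ℕ) : ℤ) = ((m ^ k * n ^ k : ℕ) : ℤ) * u := by
      push_cast
      ring
    rw [this, zpow_mul, zpow_natCast, hk, one_zpow]
  · rw [← zpow_add₀ hz0, add_comm, ← hb, Nat.cast_one, zpow_one]

theorem exfun {m n : ℕ} (hm : 0 < m) (hn : 0 < n) (h : Nat.Coprime m n) (G : ℂ → ℂ → ℂ) :
    ∃ f : ℂ → ℂ, ∀ x ∈ M m, ∀ y ∈ M n, f (x * y) = G x y := by
  classical
  refine ⟨fun z => if hz : ∃ p : ℂ × ℂ, p.1 ∈ M m ∧ p.2 ∈ M n ∧ p.1 * p.2 = z then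
    G hz.choose.1 hz.choose.2 else 0, ?_⟩
  intro x hx y hy
  have hz : ∃ p : ℂ × ℂ, p.1 ∈ M m ∧ p.2 ∈ M n ∧ p.1 * p.2 = x * y := ⟨(x, y), hx, hy, rfl⟩
  show (if hz : ∃ p : ℂ × ℂ, p.1 ∈ M m ∧ p.2 ∈ M n ∧ p.1 * p.2 = x * y then
    G hz.choose.1 hz.choose.2 else 0) = G x y
  rw [dif_pos hz]
  obtain ⟨h1, h2, h3⟩ := hz.choose_spec
  obtain ⟨e1, e2⟩ := M_uniq hm hn h h1 hx h2 hy h3
  rw [e1, e2]

theorem lv_spec {p : ℕ} {x : ℂ} (hx : x ∈ M p) : x ^ (p ^ lv p x) = 1 :=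
  Nat.sInf_mem (s := {k | x ^ (p ^ k) = 1}) hx

theorem lv_le {p k : ℕ} {x : ℂ} (h : x ^ (p ^ k) = 1) : lv p x ≤ k :=
  Nat.sInf_le (s := {k | x ^ (p ^ k) = 1}) h

theorem lv_congr {p : ℕ} {x y : ℂ} (h : ∀ k, x ^ (p ^ k) = 1 ↔ y ^ (p ^ k) = 1) :
    lv p x = lv p y := by
  have : {k | x ^ (p ^ k) = 1} = {k | y ^ (p ^ k) = 1} := Set.ext h
  rw [lv, lv, this]

theorem lv_inv (p : ℕ) (x : ℂ) : lv p x⁻¹ = lv p x :=
  lv_congr fun k => by rw [inv_pow, inv_eq_one]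

theorem lv_cop {p q : ℕ} (h : Nat.Coprime p q) {x : ℂ} (hx : x ∈ M p) :
    lv p (x ^ q) = lv p x := by
  apply lv_congr
  intro k
  rw [← pow_mul, mul_comm, pow_mul]
  constructor
  · intro h1
    obtain ⟨a, ha⟩ := M_pow hx (p ^ k)
    exact cop_one (Nat.Coprime.pow_left a h) ha h1
  · intro h1
    rw [h1, one_pow]

theorem lv_self {p : ℕ} {x : ℂ} (hx : x ∈ M p) (h1 : x ≠ 1) : lv p x = lv p (x ^ p) + 1 := by
  have h2 := lv_spec hx
  have h3 : lv p x ≠ 0 := by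
    intro h0
    rw [h0, pow_zero, pow_one] at h2
    exact h1 h2
  obtain ⟨b, hb⟩ := Nat.exists_eq_succ_of_ne_zero h3
  have h4 : lv p (x ^ p) ≤ b := by
    apply lv_le
    rw [hb, Nat.succ_eq_add_one, pow_succ'] at h2
    rw [← pow_mul]
    exact h2
  have h5 : lv p x ≤ lv p (x ^ p) + 1 := by
    apply lv_le
    rw [pow_succ', pow_mul]
    exact lv_spec (M_pow hx p)
  omega

theorem ph_one (p : ℕ) : ph p 1 = 1 := by
  rw [ph]
  split_ifs <;> simp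

theorem ph_mem {p : ℕ} {x : ℂ} (hx : x ∈ M p) : ph p x ∈ M p := by
  rw [ph]
  split_ifs
  · exact hx
  · exact M_inv hx

theorem lv_ph (p : ℕ) (x : ℂ) : lv p (ph p x) = lv p x := by
  rw [ph]
  split_ifs
  · rfl
  · exact lv_inv p x

theorem ph_inj {p : ℕ} {x y : ℂ} (h : ph p x = ph p y) : x = y := by
  have h1 : lv p x = lv p y := by rw [← lv_ph p x, ← lv_ph p y, h]
  rw [ph, ph, h1] at h
  split_ifs at h
  · exact h
  · exact inv_injective h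

theorem ph_cop {p q : ℕ} (h : Nat.Coprime p q) {x : ℂ} (hx : x ∈ M p) :
    ph p (x ^ q) = ph p x ^ q := by
  rw [ph, ph, lv_cop h hx]
  split_ifs
  · rfl
  · rw [inv_pow]

theorem ph_self {p : ℕ} (hp : 0 < p) {x : ℂ} (hx : x ∈ M p) : ph p (x ^ p) * ph p x ^ p = 1 := by
  by_cases h1 : x = 1
  · rw [h1, one_pow, ph_one, one_pow, one_mul]
  · have h2 := lv_self hx h1
    have hne : x ^ p ≠ 0 := pow_ne_zero p (M_ne hp hx)
    rw [ph, ph, h2]
    by_cases he : Even (lv p (x ^ p))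
    · rw [if_pos he, if_neg (by rw [Nat.even_add_one]; exact fun h => h he), inv_pow,
        mul_inv_cancel₀ hne]
    · rw [if_neg he, if_pos (by rw [Nat.even_add_one]; exact he), inv_mul_cancel₀ hne]

theorem shift {p : ℕ} (hp : 0 < p) {x : ℂ} (hx : x ^ p = 1) (f : ℂ → ℂ) :
    ∑ ω ∈ Polynomial.nthRootsFinset p (1 : ℂ), f (ω * x) =
      ∑ ω ∈ Polynomial.nthRootsFinset p (1 : ℂ), f ω := by
  have hx0 : x ≠ 0 := by
    intro h0
    rw [h0, zero_pow hp.ne'] at hx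
    exact zero_ne_one hx
  refine Finset.sum_nbij' (fun ω => ω * x) (fun ω => ω * x⁻¹) ?_ ?_ ?_ ?_ ?_
  · intro ω hω
    rw [Polynomial.mem_nthRootsFinset hp] at hω ⊢
    rw [mul_pow, hω, hx, one_mul]
  · intro ω hω
    rw [Polynomial.mem_nthRootsFinset hp] at hω ⊢
    rw [mul_pow, hω, inv_pow, hx, inv_one, one_mul]
  · intro ω _
    exact mul_inv_cancel_right₀ hx0 ω
  · intro ω _
    exact inv_mul_cancel_right₀ hx0 ω
  · intro ω _
    rfl

theorem sum_zpow {p : ℕ} (hp : 0 < p) {j : ℤ} (hj : ¬ (p : ℤ) ∣ j) :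
    ∑ ω ∈ Polynomial.nthRootsFinset p (1 : ℂ), ω ^ j = 0 := by
  have hprim := Complex.isPrimitiveRoot_exp p hp.ne'
  set z := Complex.exp (2 * Real.pi * Complex.I / p)
  have h1 := shift hp hprim.pow_eq_one (fun ω => ω ^ j)
  simp only [mul_zpow] at h1
  rw [← Finset.sum_mul] at h1
  have h2 : z ^ j ≠ 1 := by
    intro h
    exact hj ((hprim.zpow_eq_one_iff_dvd j).1 h)
  have h3 : (∑ ω ∈ Polynomial.nthRootsFinset p (1 : ℂ), ω ^ j) * (z ^ j - 1) = 0 := by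
    rw [mul_sub, h1, mul_one, sub_self]
  rcases mul_eq_zero.1 h3 with h | h
  · exact h
  · exact absurd (sub_eq_zero.1 h) h2

theorem sum_ph {p : ℕ} (hp : 0 < p) {x : ℂ} (_ : x ∈ M p) {j : ℤ} (hj : ¬ (p : ℤ) ∣ j) :
    ∑ ω ∈ Polynomial.nthRootsFinset p (1 : ℂ), ph p (ω * x) ^ j = 0 := by
  have hj' : ¬ (p : ℤ) ∣ -j := by
    rw [dvd_neg]
    exact hj
  by_cases h1 : x ^ p = 1
  · rw [shift hp h1 (fun ω => ph p ω ^ j), ← sum_zpow hp hj']
    apply Finset.sum_congr rfl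
    intro ω hω
    rw [Polynomial.mem_nthRootsFinset hp] at hω
    by_cases h2 : ω = 1
    · rw [h2, ph_one, one_zpow, one_zpow]
    · have h3 : lv p ω = 1 := by
        have h4 : ω ∈ M p := ⟨1, by rw [pow_one]; exact hω⟩
        have h5 := lv_self h4 h2
        have h6 : lv p (ω ^ p) ≤ 0 := by
          apply lv_le
          rw [pow_zero, pow_one]
          exact hω
        omega
      rw [ph, h3, if_neg (by decide), inv_zpow']
  · have hl : ∀ ω ∈ Polynomial.nthRootsFinset p (1 : ℂ), lv p (ω * x) = lv p x := by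
      intro ω hω
      rw [Polynomial.mem_nthRootsFinset hp] at hω
      apply lv_congr
      intro k
      rcases k with _ | k
      · rw [pow_zero, pow_one, pow_one]
        constructor
        · intro h
          exfalso
          apply h1
          have h2 : (ω * x) ^ p = 1 := by rw [h, one_pow]
          rw [mul_pow, hω, one_mul] at h2
          exact h2
        · intro h
          exfalso
          apply h1
          rw [h, one_pow]
      · rw [mul_pow, pow_succ', pow_mul ω, hω, one_pow, one_mul]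
    by_cases he : Even (lv p x)
    · have h2 : ∀ ω ∈ Polynomial.nthRootsFinset p (1 : ℂ), ph p (ω * x) ^ j = ω ^ j * x ^ j := by
        intro ω hω
        rw [ph, hl ω hω, if_pos he, mul_zpow]
      rw [Finset.sum_congr rfl h2, ← Finset.sum_mul, sum_zpow hp hj, zero_mul]
    · have h2 : ∀ ω ∈ Polynomial.nthRootsFinset p (1 : ℂ),
          ph p (ω * x) ^ j = ω ^ (-j) * x ^ (-j) := by
        intro ω hω
        rw [ph, hl ω hω, if_neg he, inv_zpow', mul_zpow]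
      rw [Finset.sum_congr rfl h2, ← Finset.sum_mul, sum_zpow hp hj', zero_mul]

theorem root_mem {p : ℕ} (hp : 0 < p) {ω : ℂ}
    (hω : ω ∈ Polynomial.nthRootsFinset p (1 : ℂ)) : ω ∈ M p := by
  rw [Polynomial.mem_nthRootsFinset hp] at hω
  exact ⟨1, by rw [pow_one]; exact hω⟩

theorem r : S_theta := by
  intro m n hm hn hmn
  obtain ⟨θ, hθ⟩ := exfun hm hn hmn (fun x y => ph m x * ph n y)
  obtain ⟨F, hF⟩ := exfun hm hn hmn (fun x y => ph m x * (ph n y)⁻¹)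
  refine ⟨θ, F, ?_, ?_, ?_, ?_, ?_, ?_, ?_⟩
  · have := hθ 1 (M_one m) 1 (M_one n)
    rw [mul_one, ph_one, ph_one, mul_one] at this
    exact this
  · intro z hz
    obtain ⟨x, hx, y, hy, rfl⟩ := M_dec hm hn hmn hz
    rw [hθ x hx y hy, norm_mul, M_norm hm (ph_mem hx), M_norm hn (ph_mem hy), mul_one]
  · intro z hz z' hz' e
    obtain ⟨x, hx, y, hy, rfl⟩ := M_dec hm hn hmn hz
    obtain ⟨x', hx', y', hy', rfl⟩ := M_dec hm hn hmn hz'
    rw [hθ x hx y hy, hθ x' hx' y' hy'] at e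
    obtain ⟨e1, e2⟩ := M_uniq hm hn hmn (ph_mem hx) (ph_mem hx') (ph_mem hy) (ph_mem hy') e
    rw [ph_inj e1, ph_inj e2]
  · intro z hz
    obtain ⟨x, hx, y, hy, rfl⟩ := M_dec hm hn hmn hz
    rw [mul_pow x y, hF _ (M_pow hx m) _ (M_pow hy m), hθ x hx y hy, mul_pow,
      ph_cop hmn.symm hy]
    have h1 := ph_self hm hx
    have h2 : ph n y ^ m ≠ 0 := pow_ne_zero m (M_ne hn (ph_mem hy))
    calc ph m x ^ m * ph n y ^ m * (ph m (x ^ m) * (ph n y ^ m)⁻¹)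
        = (ph m (x ^ m) * ph m x ^ m) * (ph n y ^ m * (ph n y ^ m)⁻¹) := by ring
      _ = 1 := by rw [h1, mul_inv_cancel₀ h2, one_mul]
  · intro z hz
    obtain ⟨x, hx, y, hy, rfl⟩ := M_dec hm hn hmn hz
    rw [mul_pow x y, hF _ (M_pow hx n) _ (M_pow hy n), hθ x hx y hy, mul_pow,
      ph_cop hmn hx]
    have h1 := ph_self hn hy
    have h2 : (ph n (y ^ n))⁻¹ = ph n y ^ n := inv_eq_of_mul_eq_one_right h1
    rw [h2]
  · intro z hz j hj
    obtain ⟨x, hx, y, hy, rfl⟩ := M_dec hm hn hmn hz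
    have h1 : ∀ ω ∈ Polynomial.nthRootsFinset m (1 : ℂ),
        θ (ω * (x * y)) ^ j = ph m (ω * x) ^ j * ph n y ^ j := by
      intro ω hω
      rw [← mul_assoc, hθ _ (M_mul (root_mem hm hω) hx) y hy, mul_zpow]
    rw [Finset.sum_congr rfl h1, ← Finset.sum_mul, sum_ph hm hx hj, zero_mul]
  · intro z hz j hj
    obtain ⟨x, hx, y, hy, rfl⟩ := M_dec hm hn hmn hz
    have h1 : ∀ ω ∈ Polynomial.nthRootsFinset n (1 : ℂ),
        θ (ω * (x * y)) ^ j = ph n (ω * y) ^ j * ph m x ^ j := by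
      intro ω hω
      rw [show ω * (x * y) = x * (ω * y) by ring, hθ x hx _ (M_mul (root_mem hn hω) hy),
        mul_zpow, mul_comm]
    rw [Finset.sum_congr rfl h1, ← Finset.sum_mul, sum_ph hn hy hj, zero_mul]

end

end Pool.Agent.H255.BS.B_theta
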