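import Pool.Agent.H255.BS.Iso
import Pool.Agent.H255.BS.B_brit
import Pool.Agent.H255.BS.B_grp
import Pool.Agent.H255.BS.B_theta
import Pool.Agent.H255.BS.B_bfam
import Pool.Agent.H255.BS.B_expd
import Pool.Agent.H255.BS.B_rel
import Pool.Agent.H255.BS.B_com
import Pool.Agent.H255.BS.B_coef
import Pool.Agent.H255.BS.B_gns
import Pool.Agent.H255.BS.B_qreg
import Pool.Agent.H255.BS.B_vn
import Pool.Agent.H255.BS.B_fin

/-! Assembly: Hecke von Neumann algebras of coprime Baumslag–Solitar Hecke pairs (helper255). -/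

set_option autoImplicit false

open scoped InnerProductSpace

namespace Pool.Agent.H255.BS.All

open Pool.Agent.H255.BS

theorem hfin : S_fin :=
  B_fin.r B_brit.r B_grp.r B_theta.r B_bfam.r B_expd.r B_rel.r B_com.r B_coef.r B_gns.r
    B_qreg.r B_qreg.r2

theorem same_refl (m n : ℤ) :
    HeckeIso (Subgroup.zpowers (ga m n)) (Subgroup.zpowers (ga m n)) := by
  have hV : ∀ T : L2 (BSG m n ⧸ Subgroup.zpowers (ga m n)) →L[ℂ]
      L2 (BSG m n ⧸ Subgroup.zpowers (ga m n)), T ∈ Hecke (Subgroup.zpowers (ga m n)) ↔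
      (LinearIsometryEquiv.refl ℂ
        (L2 (BSG m n ⧸ Subgroup.zpowers (ga m n)))).conjStarAlgEquiv T ∈
        Hecke (Subgroup.zpowers (ga m n)) := by
    intro T
    have : (LinearIsometryEquiv.refl ℂ
        (L2 (BSG m n ⧸ Subgroup.zpowers (ga m n)))).conjStarAlgEquiv T = T := by
      ext x
      rfl
    rw [this]
  exact heckeIso_of _ _ _ hV (B_vn.r (BSG m n) (BSG m n) (Subgroup.zpowers (ga m n))
    (Subgroup.zpowers (ga m n)) _ hV)

theorem same_neg (m n : ℕ) (hm : 0 < m) (hn : 0 < n) (h : Nat.Coprime m n) :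
    HeckeIso (Subgroup.zpowers (ga m n)) (Subgroup.zpowers (ga (-m) n)) := by
  obtain ⟨V, hV⟩ := hfin m n hm hn h
  exact heckeIso_of _ _ V hV (B_vn.r (BSG m n) (BSG (-m) n) (Subgroup.zpowers (ga m n))
    (Subgroup.zpowers (ga (-m) n)) V hV)

theorem coprime_ratio {a b c d : ℕ} (h1 : Nat.Coprime a b) (h2 : Nat.Coprime c d)
    (h : a * d = c * b) : a = c ∧ b = d := by
  have e1 : a ∣ c := h1.dvd_of_dvd_mul_right (Dvd.intro _ h)
  have e2 : c ∣ a := h2.dvd_of_dvd_mul_right (Dvd.intro _ h.symm)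
  have e3 : b ∣ d := h1.symm.dvd_of_dvd_mul_left (Dvd.intro_left _ h.symm)
  have e4 : d ∣ b := h2.symm.dvd_of_dvd_mul_left (Dvd.intro_left _ h)
  exact ⟨Nat.dvd_antisymm e1 e2, Nat.dvd_antisymm e3 e4⟩

theorem main (m n m' n' : ℤ) (hm : m ≠ 0) (hn : 0 < n) (hn' : 0 < n')
    (h : Int.gcd m n = 1) (h' : Int.gcd m' n' = 1) (hr : |m| * n' = |m'| * n) :
    HeckeIso (Subgroup.zpowers (ga m n)) (Subgroup.zpowers (ga m' n')) := by
  obtain ⟨e1, e2⟩ : m.natAbs = m'.natAbs ∧ n.natAbs = n'.natAbs := by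
    refine coprime_ratio h h' ?_
    have : ((m.natAbs * n'.natAbs : ℕ) : ℤ) = ((m'.natAbs * n.natAbs : ℕ) : ℤ) := by
      push_cast
      rw [abs_of_pos hn, abs_of_pos hn', hr]
    exact_mod_cast this
  have hnn : n = n' := by omega
  subst hnn
  obtain ⟨N, rfl⟩ : ∃ N : ℕ, n = N := ⟨n.natAbs, by omega⟩
  obtain ⟨M, hM⟩ : ∃ M : ℕ, M = m.natAbs := ⟨_, rfl⟩
  have hM0 : 0 < M := by omega
  have hN0 : 0 < N := by omega
  have hc : Nat.Coprime M N := by
    rw [hM]
    simpa [Int.gcd] using h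
  have hS := same_neg M N hM0 hN0 hc
  rcases Int.natAbs_eq m with hm1 | hm1 <;> rcases Int.natAbs_eq m' with hm2 | hm2
  · have : m = m' := by omega
    subst this
    exact same_refl _ _
  · have a1 : m = (M : ℤ) := by omega
    have a2 : m' = -(M : ℤ) := by omega
    subst a1 a2
    exact hS
  · have a1 : m = -(M : ℤ) := by omega
    have a2 : m' = (M : ℤ) := by omega
    subst a1 a2
    exact heckeIso_symm hS
  · have : m = m' := by omega
    subst this
    exact same_refl _ _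

end Pool.Agent.H255.BS.All
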