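import Mathlib

/-!
Hecke von Neumann algebras of Baumslag–Solitar Hecke pairs: definitions and interfaces (helper255).
-/

set_option autoImplicit false

open Filter Topology Complex
open scoped InnerProductSpace

namespace Pool.Agent.H255.BS

noncomputable section

/-- the relator of `BS(m,n)`: `t a^m t^{-1} a^{-n}` (`a` is the generator `false`, `t` the
generator `true`) -/
def rels (m n : ℤ) : Set (FreeGroup Bool) :=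
  {FreeGroup.of true * FreeGroup.of false ^ m * (FreeGroup.of true)⁻¹ * (FreeGroup.of false ^ n)⁻¹}

/-- the Baumslag–Solitar group `BS(m,n) = ⟨a, t | t a^m t^{-1} = a^n⟩` -/
abbrev BSG (m n : ℤ) : Type := PresentedGroup (rels m n)

/-- the generator `a` -/
def ga (m n : ℤ) : BSG m n := PresentedGroup.of false

/-- the generator `t` -/
def gt (m n : ℤ) : BSG m n := PresentedGroup.of true

/-- the Hilbert space `ℓ²(ι)` -/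
abbrev L2 (ι : Type) : Type := lp (fun _ : ι => ℂ) 2

/-- the basis vector `δ_x` of `ℓ²(ι)` -/
def dl {ι : Type} (x : ι) : L2 ι := by classical exact lp.single 2 x (1 : ℂ)

/-- the Hecke von Neumann algebra `L(Γ//Λ)`: the commutant of the quasi-regular representation of
`Γ` on `ℓ²(Γ/Λ)` -/
def Hecke {Γ : Type} [Group Γ] (Λ : Subgroup Γ) : Set (L2 (Γ ⧸ Λ) →L[ℂ] L2 (Γ ⧸ Λ)) :=
  {T | ∀ (g : Γ) (S : L2 (Γ ⧸ Λ) →L[ℂ] L2 (Γ ⧸ Λ)), (∀ x : Γ ⧸ Λ, S (dl x) = dl (g • x)) →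
    T * S = S * T}

/-! ### Auxiliary notions -/

/-- `t^{±1}` -/
def tp {Γ : Type} [Group Γ] (t : Γ) (e : Bool) : Γ := if e then t else t⁻¹

/-- the word `t^{e₁} a^{k₁} t^{e₂} a^{k₂} ...` -/
def wd {Γ : Type} [Group Γ] (a t : Γ) : List (Bool × ℤ) → Γ
  | [] => 1
  | x :: L => tp t x.1 * a ^ x.2 * wd a t L

/-- reduced words -/
def Red (m n : ℤ) : List (Bool × ℤ) → Prop
  | [] => True
  | [_] => True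
  | x :: y :: L => (x.1 = true → y.1 = false → ¬ m ∣ x.2) ∧
      (x.1 = false → y.1 = true → ¬ n ∣ x.2) ∧ Red m n (y :: L)

/-- the facts on `BS(m,n)` -/
structure BSD (Γ : Type) [Group Γ] (m n : ℤ) (a t : Γ) : Prop where
  rel : t * a ^ m = a ^ n * t
  brit : ∀ L : List (Bool × ℤ), L ≠ [] → Red m n L → wd a t L ∉ Subgroup.zpowers a
  norm : ∀ g : Γ, ∃ (k : ℤ) (L : List (Bool × ℤ)), Red m n L ∧ g = a ^ k * wd a t L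
  ord : ∀ g : Γ, ∃ k : ℕ, 1 ≤ k ∧
    g⁻¹ * a ^ ((m.natAbs * n.natAbs) ^ k) * g ∈ Subgroup.zpowers a
  univ : ∀ (Q : Type) [Group Q] (b s : Q), s * b ^ m = b ^ n * s →
    ∃ f : Γ →* Q, f a = b ∧ f t = s
  gen : ∀ K : Subgroup Γ, a ∈ K → t ∈ K → K = ⊤

/-- the roots of unity of order dividing some `(mn)^k` -/
def mu (m n : ℕ) : Set ℂ := {ζ | ∃ k : ℕ, ζ ^ ((m * n) ^ k) = 1}

/-- `A` is unitary and has a total set of eigenvectors with eigenvalues in `Z` -/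
structure PP {H : Type} [NormedAddCommGroup H] [InnerProductSpace ℂ H] [CompleteSpace H]
    (Z : Set ℂ) (A : H →L[ℂ] H) : Prop where
  iso : star A * A = 1
  iso' : A * star A = 1
  tot : ∀ v : H, (∀ ζ ∈ Z, ∀ w : H, A w = ζ • w → ⟪w, v⟫_ℂ = 0) → v = 0

/-- the properties of the function `θ` -/
structure TH (m n : ℕ) (θ F : ℂ → ℂ) : Prop where
  one : θ 1 = 1
  norm : ∀ ζ ∈ mu m n, ‖θ ζ‖ = 1
  inj : ∀ ζ ∈ mu m n, ∀ η ∈ mu m n, θ ζ = θ η → ζ = η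
  powm : ∀ ζ ∈ mu m n, θ ζ ^ m * F (ζ ^ m) = 1
  pown : ∀ ζ ∈ mu m n, θ ζ ^ n = F (ζ ^ n)
  summ : ∀ ζ ∈ mu m n, ∀ j : ℤ, ¬ (m : ℤ) ∣ j →
    ∑ ω ∈ Polynomial.nthRootsFinset m (1 : ℂ), θ (ω * ζ) ^ j = 0
  sumn : ∀ ζ ∈ mu m n, ∀ j : ℤ, ¬ (n : ℤ) ∣ j →
    ∑ ω ∈ Polynomial.nthRootsFinset n (1 : ℂ), θ (ω * ζ) ^ j = 0

/-- `B j = θ(A)^j` -/
structure BF {H : Type} [NormedAddCommGroup H] [InnerProductSpace ℂ H] [CompleteSpace H]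
    (Z : Set ℂ) (A : H →L[ℂ] H) (θ : ℂ → ℂ) (B : ℤ → H →L[ℂ] H) : Prop where
  eig : ∀ ζ ∈ Z, ∀ v : H, A v = ζ • v → ∀ j : ℤ, B j v = θ ζ ^ j • v
  zero : B 0 = 1
  add : ∀ i j : ℤ, B (i + j) = B i * B j
  star_eq : ∀ j : ℤ, star (B j) = B (-j)

/-- the vector `T^{e₁} B(k₁) T^{e₂} B(k₂) ... δ` -/
def vec {H : Type} [NormedAddCommGroup H] [InnerProductSpace ℂ H] [CompleteSpace H]
    (B : ℤ → H →L[ℂ] H) (T : H →L[ℂ] H) (δ : H) : List (Bool × ℤ) → H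
  | [] => δ
  | x :: L => (if x.1 then T else star T) (B x.2 (vec B T δ L))

/-- the expansion property -/
def Expd {H : Type} [NormedAddCommGroup H] [InnerProductSpace ℂ H] [CompleteSpace H]
    (m n : ℕ) (A : H →L[ℂ] H) (B : ℤ → H →L[ℂ] H) : Prop :=
  ∀ (k : ℕ) (u : H), 1 ≤ k → (A ^ ((m * n) ^ k)) u = u → ∀ j : ℤ,
    B j u ∈ Submodule.span ℂ {w : H | ∃ i : ℕ, w = (A ^ i) u ∧
      ((m : ℤ) ∣ (i : ℤ) → (m : ℤ) ∣ j) ∧ ((n : ℤ) ∣ (i : ℤ) → (n : ℤ) ∣ j)}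

/-! ### The tasks -/

/-- B1: facts on `BS(m,n)`, except Britton's lemma -/
def S_grp : Prop := ∀ m n : ℤ, m ≠ 0 → n ≠ 0 →
  (∀ L : List (Bool × ℤ), L ≠ [] → Red m n L →
    wd (ga m n) (gt m n) L ∉ Subgroup.zpowers (ga m n)) → BSD (BSG m n) m n (ga m n) (gt m n)

/-- B2: Britton's lemma -/
def S_brit : Prop := ∀ m n : ℤ, m ≠ 0 → n ≠ 0 → ∀ L : List (Bool × ℤ), L ≠ [] → Red m n L →
  wd (ga m n) (gt m n) L ∉ Subgroup.zpowers (ga m n)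

/-- B3: the function `θ` -/
def S_theta : Prop := ∀ m n : ℕ, 0 < m → 0 < n → Nat.Coprime m n → ∃ θ F : ℂ → ℂ, TH m n θ F

/-- B4: existence of `θ(A)^j` -/
def S_bfam : Prop := ∀ (H : Type) [NormedAddCommGroup H] [InnerProductSpace ℂ H] [CompleteSpace H]
  (Z : Set ℂ) (A : H →L[ℂ] H), PP Z A → ∀ θ : ℂ → ℂ, (∀ ζ ∈ Z, ‖θ ζ‖ = 1) →
  ∃ B : ℤ → H →L[ℂ] H, BF Z A θ B

/-- B5: the expansion -/
def S_expd : Prop := ∀ (H : Type) [NormedAddCommGroup H] [InnerProductSpace ℂ H] [CompleteSpace H]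
  (m n : ℕ), 0 < m → 0 < n → ∀ A : H →L[ℂ] H, PP (mu m n) A → ∀ θ F : ℂ → ℂ, TH m n θ F →
  ∀ B : ℤ → H →L[ℂ] H, BF (mu m n) A θ B → Expd m n A B

/-- B6: the relation -/
def S_rel : Prop := ∀ (H : Type) [NormedAddCommGroup H] [InnerProductSpace ℂ H] [CompleteSpace H]
  (m n : ℕ), 0 < m → 0 < n → ∀ A : H →L[ℂ] H, PP (mu m n) A → ∀ θ F : ℂ → ℂ, TH m n θ F →
  ∀ B : ℤ → H →L[ℂ] H, BF (mu m n) A θ B → ∀ T : H →L[ℂ] H, star T * T = 1 → T * star T = 1 →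
  T * A ^ m = A ^ n * T → T * B (-(m : ℤ)) = B (n : ℤ) * T

/-- B7: the commutants -/
def S_com : Prop := ∀ (H : Type) [NormedAddCommGroup H] [InnerProductSpace ℂ H] [CompleteSpace H]
  (Z : Set ℂ) (A : H →L[ℂ] H), PP Z A → ∀ θ : ℂ → ℂ, (∀ ζ ∈ Z, ‖θ ζ‖ = 1) →
  (∀ ζ ∈ Z, ∀ η ∈ Z, θ ζ = θ η → ζ = η) → ∀ B : ℤ → H →L[ℂ] H, BF Z A θ B →
  ∀ T : H →L[ℂ] H, T * A = A * T ↔ T * B 1 = B 1 * T

/-- B8: the matrix coefficients -/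
def S_coef : Prop := ∀ (H : Type) [NormedAddCommGroup H] [InnerProductSpace ℂ H] [CompleteSpace H]
  (m n : ℕ), 0 < m → 0 < n → ∀ (Γ : Type) [Group Γ] (a t : Γ), BSD Γ m n a t →
  ∀ (ρ : Γ →* (H →L[ℂ] H)) (δ : H), (∀ g : Γ, star (ρ g) = ρ g⁻¹) →
  (∀ g : Γ, g ∈ Subgroup.zpowers a → ρ g δ = δ) →
  (∀ g : Γ, g ∉ Subgroup.zpowers a → ⟪δ, ρ g δ⟫_ℂ = 0) → ∀ B : ℤ → H →L[ℂ] H,
  (∀ j : ℤ, B j δ = δ) → Expd m n (ρ a) B →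
  ∀ L : List (Bool × ℤ), L ≠ [] → Red m n L → ⟪δ, vec B (ρ t) δ L⟫_ℂ = 0

/-- B9: a representation with a cyclic vector and the coefficient `1_Λ` is quasi-regular -/
def S_gns : Prop := ∀ (H : Type) [NormedAddCommGroup H] [InnerProductSpace ℂ H] [CompleteSpace H]
  (Γ : Type) [Group Γ] (Λ : Subgroup Γ) (ρ : Γ →* (H →L[ℂ] H)) (δ : H),
  (∀ g : Γ, star (ρ g) = ρ g⁻¹) → ‖δ‖ = 1 → (∀ g : Γ, g ∈ Λ → ρ g δ = δ) →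
  (∀ g : Γ, g ∉ Λ → ⟪δ, ρ g δ⟫_ℂ = 0) → (∀ v : H, (∀ g : Γ, ⟪ρ g δ, v⟫_ℂ = 0) → v = 0) →
  ∃ V : L2 (Γ ⧸ Λ) ≃ₗᵢ[ℂ] H, ∀ g : Γ, V (dl (g : Γ ⧸ Λ)) = ρ g δ

/-- B10: the quasi-regular representation -/
def S_qreg : Prop := ∀ (Γ : Type) [Group Γ] (Λ : Subgroup Γ),
  (∃ ρ : Γ →* (L2 (Γ ⧸ Λ) →L[ℂ] L2 (Γ ⧸ Λ)), (∀ g : Γ, star (ρ g) = ρ g⁻¹) ∧
    ∀ (g : Γ) (x : Γ ⧸ Λ), ρ g (dl x) = dl (g • x)) ∧
  (∀ x : Γ ⧸ Λ, ‖dl x‖ = 1) ∧ (∀ x y : Γ ⧸ Λ, x ≠ y → ⟪dl x, dl y⟫_ℂ = 0) ∧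
  (∀ v : L2 (Γ ⧸ Λ), (∀ x : Γ ⧸ Λ, ⟪dl x, v⟫_ℂ = 0) → v = 0) ∧
  ∀ S S' : L2 (Γ ⧸ Λ) →L[ℂ] L2 (Γ ⧸ Λ), (∀ x : Γ ⧸ Λ, S (dl x) = S' (dl x)) → S = S'

/-- B11: the quasi-regular representation of `BS(m,n)`: `λ(a)` has a total set of eigenvectors -/
def S_tot : Prop := ∀ (m n : ℕ), 0 < m → 0 < n → ∀ (H : Type) [NormedAddCommGroup H]
  [InnerProductSpace ℂ H] [CompleteSpace H] (A : H →L[ℂ] H), star A * A = 1 → A * star A = 1 →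
  (∀ v : H, (∀ (k : ℕ) (u : H), (A ^ ((m * n) ^ k)) u = u → ⟪u, v⟫_ℂ = 0) → v = 0) →
  PP (mu m n) A

/-- B12: the unitary -/
def S_fin : Prop := ∀ m n : ℕ, 0 < m → 0 < n → Nat.Coprime m n →
  ∃ V : L2 (BSG m n ⧸ Subgroup.zpowers (ga m n)) ≃ₗᵢ[ℂ]
      L2 (BSG (-m) n ⧸ Subgroup.zpowers (ga (-m) n)),
    ∀ T : L2 (BSG m n ⧸ Subgroup.zpowers (ga m n)) →L[ℂ]
      L2 (BSG m n ⧸ Subgroup.zpowers (ga m n)),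
      T ∈ Hecke (Subgroup.zpowers (ga m n)) ↔
        V.conjStarAlgEquiv T ∈ Hecke (Subgroup.zpowers (ga (-m) n))

/-- B13: from the unitary to the von Neumann algebras -/
def S_vn : Prop := ∀ (Γ Γ' : Type) [Group Γ] [Group Γ'] (Λ : Subgroup Γ) (Λ' : Subgroup Γ')
  (V : L2 (Γ ⧸ Λ) ≃ₗᵢ[ℂ] L2 (Γ' ⧸ Λ')),
  (∀ T : L2 (Γ ⧸ Λ) →L[ℂ] L2 (Γ ⧸ Λ), T ∈ Hecke Λ ↔ V.conjStarAlgEquiv T ∈ Hecke Λ') →
  ∃ (L : VonNeumannAlgebra (L2 (Γ ⧸ Λ))) (L' : VonNeumannAlgebra (L2 (Γ' ⧸ Λ'))),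
    (∀ T, T ∈ L ↔ T ∈ Hecke Λ) ∧ (∀ T, T ∈ L' ↔ T ∈ Hecke Λ') ∧
    Nonempty (L.toStarSubalgebra ≃⋆ₐ[ℂ] L'.toStarSubalgebra)

end

end Pool.Agent.H255.BS
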