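import Pool.Agent.H255.BS.Defs

/-! Isomorphism of Hecke von Neumann algebras: the definitions used in the statement
(helper255). -/

set_option autoImplicit false

namespace Pool.Agent.H255.BS

/-- `T = V S V⁻¹` -/
def Conj {H K : Type} [NormedAddCommGroup H] [InnerProductSpace ℂ H]
    [NormedAddCommGroup K] [InnerProductSpace ℂ K]
    (V : H ≃ₗᵢ[ℂ] K) (S : H →L[ℂ] H) (T : K →L[ℂ] K) : Prop :=
  ∀ x : H, T (V x) = V (S x)

/-- the von Neumann algebras `L` and `M` are spatially isomorphic: `V L V⁻¹ = M` for a unitary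
`V : H → K` -/
def SpIso {H K : Type} [NormedAddCommGroup H] [InnerProductSpace ℂ H] [CompleteSpace H]
    [NormedAddCommGroup K] [InnerProductSpace ℂ K] [CompleteSpace K]
    (L : VonNeumannAlgebra H) (M : VonNeumannAlgebra K) : Prop :=
  ∃ V : H ≃ₗᵢ[ℂ] K, ∀ (S : H →L[ℂ] H) (T : K →L[ℂ] K), Conj V S T → (S ∈ L ↔ T ∈ M)

/-- `L` is the commutant of the representation of `Γ` on `H` which permutes the vectors `e x` as
`Γ` acts on `X`: an operator `T` is in `L` if and only if it commutes, for every `g`, with the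
bounded operator `S` with `S (e x) = e (g • x)` -/
def IsComm {H : Type} [NormedAddCommGroup H] [InnerProductSpace ℂ H] [CompleteSpace H]
    (Γ : Type) {X : Type} [SMul Γ X] (e : X → H) (L : VonNeumannAlgebra H) : Prop :=
  ∀ T : H →L[ℂ] H, T ∈ L ↔
    ∀ (g : Γ) (S : H →L[ℂ] H), (∀ x, S (e x) = e (g • x)) → T ∘L S = S ∘L T

/-- the Hecke von Neumann algebras of `(Γ,Λ)` and `(Γ',Λ')`, that is, the commutants `L`, `L'` of
the quasi-regular representations on `ℓ²(Γ/Λ)`, `ℓ²(Γ'/Λ')`, are (spatially) isomorphic -/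
def HeckeIso {Γ Γ' : Type} [Group Γ] [Group Γ'] (Λ : Subgroup Γ) (Λ' : Subgroup Γ') : Prop :=
  ∃ (L : VonNeumannAlgebra (L2 (Γ ⧸ Λ))) (L' : VonNeumannAlgebra (L2 (Γ' ⧸ Λ'))),
    IsComm Γ (dl : Γ ⧸ Λ → L2 (Γ ⧸ Λ)) L ∧ IsComm Γ' (dl : Γ' ⧸ Λ' → L2 (Γ' ⧸ Λ')) L' ∧
    SpIso L L'

theorem heckeIso_of {Γ Γ' : Type} [Group Γ] [Group Γ'] (Λ : Subgroup Γ) (Λ' : Subgroup Γ')
    (V : L2 (Γ ⧸ Λ) ≃ₗᵢ[ℂ] L2 (Γ' ⧸ Λ'))
    (hV : ∀ T : L2 (Γ ⧸ Λ) →L[ℂ] L2 (Γ ⧸ Λ), T ∈ Hecke Λ ↔ V.conjStarAlgEquiv T ∈ Hecke Λ')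
    (h : ∃ (L : VonNeumannAlgebra (L2 (Γ ⧸ Λ))) (L' : VonNeumannAlgebra (L2 (Γ' ⧸ Λ'))),
      (∀ T, T ∈ L ↔ T ∈ Hecke Λ) ∧ (∀ T, T ∈ L' ↔ T ∈ Hecke Λ') ∧
      Nonempty (L.toStarSubalgebra ≃⋆ₐ[ℂ] L'.toStarSubalgebra)) : HeckeIso Λ Λ' := by
  obtain ⟨L, L', h1, h2, -⟩ := h
  refine ⟨L, L', h1, h2, V, fun S T hST => ?_⟩
  have e : V.conjStarAlgEquiv S = T := by
    refine ContinuousLinearMap.ext fun y => ?_
    have h3 : V.conjStarAlgEquiv S y = V (S (V.symm y)) := rfl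
    rw [h3, ← hST (V.symm y), LinearIsometryEquiv.apply_symm_apply]
  rw [h1, h2, hV, e]

theorem heckeIso_symm {Γ Γ' : Type} [Group Γ] [Group Γ'] {Λ : Subgroup Γ} {Λ' : Subgroup Γ'}
    (h : HeckeIso Λ Λ') : HeckeIso Λ' Λ := by
  obtain ⟨L, L', h1, h2, V, hV⟩ := h
  refine ⟨L', L, h2, h1, V.symm, fun S T hST => (hV T S fun x => ?_).symm⟩
  have h3 := hST (V x)
  rw [LinearIsometryEquiv.symm_apply_apply] at h3
  rw [h3, LinearIsometryEquiv.apply_symm_apply]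

end Pool.Agent.H255.BS
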